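import Pool.Agent.helper75.AU.SpecW

/-!
# Project au, module QW9: squarefree polynomials
-/

namespace Pool.Agent.helper53.AU

open scoped Classical IntermediateField
open Polynomial (aeval)

noncomputable section

theorem QW9_deg (k : Type) [Field k] (n : ℕ) (hn : 2 ≤ n) (h : (n : k) ≠ 0) :
    ((Polynomial.X + 1) ^ n - Polynomial.X ^ n : Polynomial k).natDegree = n - 1 := by
  have hc : ((Polynomial.X + 1) ^ n - Polynomial.X ^ n : Polynomial k).coeff (n - 1) ≠ 0 := by
    rw [Polynomial.coeff_sub, Polynomial.coeff_X_add_one_pow, Polynomial.coeff_X_pow,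
      if_neg (by omega), sub_zero]
    have h1 : n.choose (n - 1) = n := by
      have := Nat.choose_symm_of_eq_add (show n = (n - 1) + 1 by omega)
      rw [this, Nat.choose_one_right]
    rw [h1]
    exact h
  apply le_antisymm
  · have h2 : ((Polynomial.X + 1) ^ n - Polynomial.X ^ n : Polynomial k).natDegree < n ∨
        ((Polynomial.X + 1) ^ n - Polynomial.X ^ n : Polynomial k) = 0 := by
      by_cases h0 : ((Polynomial.X + 1) ^ n - Polynomial.X ^ n : Polynomial k) = 0
      · exact Or.inr h0
      left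
      rw [Polynomial.natDegree_lt_iff_degree_lt h0]
      have h3 : ((Polynomial.X + 1) ^ n : Polynomial k).Monic := by
        have h31 : (Polynomial.X + 1 : Polynomial k) = Polynomial.X + Polynomial.C 1 := by simp
        rw [h31]
        exact (Polynomial.monic_X_add_C 1).pow n
      have h4 : ((Polynomial.X + 1) ^ n : Polynomial k).natDegree = n := by
        have h31 : (Polynomial.X + 1 : Polynomial k) = Polynomial.X + Polynomial.C 1 := by simp
        rw [h31, Polynomial.natDegree_pow, Polynomial.natDegree_X_add_C, mul_one]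
      have h5 : ((Polynomial.X + 1) ^ n : Polynomial k).degree = n := by
        rw [Polynomial.degree_eq_natDegree h3.ne_zero, h4]
      have h6 := Polynomial.degree_sub_lt_left (p := ((Polynomial.X + 1) ^ n : Polynomial k))
        (q := Polynomial.X ^ n) (by rw [h5, Polynomial.degree_X_pow]) h3.ne_zero
        (by rw [h3.leadingCoeff, Polynomial.leadingCoeff_X_pow])
      rwa [h5] at h6
    rcases h2 with h2 | h2
    · omega
    · rw [h2]; simp
  · exact Polynomial.le_natDegree_of_ne_zero hc

theorem QW9_sep (k : Type) [Field k] (n : ℕ) (hn : 2 ≤ n) (h : (n : k) ≠ 0) :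
    ((Polynomial.X + 1) ^ n - Polynomial.X ^ n : Polynomial k).Separable := by
  obtain ⟨m, rfl⟩ : ∃ m, n = m + 1 := ⟨n - 1, by omega⟩
  have hcop : IsCoprime ((Polynomial.X : Polynomial k) ^ m) ((Polynomial.X + 1) ^ m) := by
    apply IsCoprime.pow
    exact ⟨-1, 1, by ring⟩
  obtain ⟨a, b, hab⟩ := hcop
  have hder : Polynomial.derivative ((Polynomial.X + 1) ^ (m + 1) - Polynomial.X ^ (m + 1) : Polynomial k) =
      Polynomial.C ((m + 1 : ℕ) : k) * ((Polynomial.X + 1) ^ m - Polynomial.X ^ m) := by
    rw [Polynomial.derivative_sub, Polynomial.derivative_pow, Polynomial.derivative_X_pow]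
    simp
    ring
  have hC : Polynomial.C (((m + 1 : ℕ) : k)⁻¹) * Polynomial.C ((m + 1 : ℕ) : k) = 1 := by
    rw [← Polynomial.C_mul, inv_mul_cancel₀ h, Polynomial.C_1]
  refine ⟨a + b, Polynomial.C (((m + 1 : ℕ) : k)⁻¹) * (-(a * (Polynomial.X + 1)) - b * Polynomial.X), ?_⟩
  rw [hder]
  calc _ = (a + b) * ((Polynomial.X + 1) ^ (m + 1) - Polynomial.X ^ (m + 1)) +
        (Polynomial.C (((m + 1 : ℕ) : k)⁻¹) * Polynomial.C ((m + 1 : ℕ) : k)) *
          ((-(a * (Polynomial.X + 1)) - b * Polynomial.X) * ((Polynomial.X + 1) ^ m - Polynomial.X ^ m)) := by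
        ring
    _ = a * Polynomial.X ^ m + b * (Polynomial.X + 1) ^ m := by rw [hC]; ring
    _ = 1 := hab

theorem QW9 : QW9_stmt := by
  intro k _ _
  refine ⟨fun g hg h => ?_, fun n hn h => ?_⟩
  · have h1 : ((2 * g : ℕ) : k) ≠ 0 := by push_cast; exact h
    have h2 : (Polynomial.X ^ (2 * g + 1) - Polynomial.X : Polynomial k) =
        Polynomial.X * (Polynomial.X ^ (2 * g) - Polynomial.C 1) := by
      rw [Polynomial.C_1]; ring
    have h3 : (Polynomial.X ^ (2 * g) - Polynomial.C 1 : Polynomial k).Separable :=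
      Polynomial.separable_X_pow_sub_C 1 h1 one_ne_zero
    have hco : IsCoprime (Polynomial.X : Polynomial k) (Polynomial.X ^ (2 * g) - Polynomial.C 1) := by
      refine ⟨Polynomial.X ^ (2 * g - 1), -1, ?_⟩
      have h4 : (Polynomial.X : Polynomial k) ^ (2 * g - 1) * Polynomial.X = Polynomial.X ^ (2 * g) := by
        rw [← pow_succ]; congr 1; omega
      rw [h4, Polynomial.C_1]; ring
    constructor
    · rw [h2]
      exact (Polynomial.separable_X.mul h3 hco).squarefree
    · have h5 : (Polynomial.X ^ (2 * g) - Polynomial.C 1 : Polynomial k).natDegree = 2 * g :=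
        Polynomial.natDegree_X_pow_sub_C
      have h6 : (Polynomial.X ^ (2 * g) - Polynomial.C 1 : Polynomial k) ≠ 0 := h3.ne_zero
      rw [h2, Polynomial.natDegree_mul Polynomial.X_ne_zero h6, Polynomial.natDegree_X, h5]
      ring
  · refine ⟨?_, ?_, (QW9_sep k n hn h).squarefree, QW9_deg k n hn h⟩
    · have h1 : (Polynomial.X ^ n - 1 : Polynomial k) = Polynomial.X ^ n - Polynomial.C 1 := by
        rw [Polynomial.C_1]
      rw [h1]
      exact (Polynomial.separable_X_pow_sub_C 1 h one_ne_zero).squarefree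
    · have h1 : (Polynomial.X ^ n - 1 : Polynomial k) = Polynomial.X ^ n - Polynomial.C 1 := by
        rw [Polynomial.C_1]
      rw [h1, Polynomial.natDegree_X_pow_sub_C]

end

end Pool.Agent.helper53.AU
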