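import Pool.Agent.helper87.AU.SpecQ1

/-!
# Project au, module QR2: the genus exists (Riemann)
-/

namespace Pool.Agent.helper53.AU

open scoped Classical IntermediateField
open Polynomial (aeval)

noncomputable section

section
variable {k F : Type} [Field k] [Field F] [Algebra k F]

theorem QR2_deg_add (D D' : Place k F →₀ ℤ) : degD (D + D') = degD D + degD D' := by
  unfold degD
  exact Finsupp.sum_add_index' (fun _ => rfl) (fun _ _ _ => rfl)

theorem QR2_deg_nsmul (r : ℕ) (D : Place k F →₀ ℤ) : degD (r • D) = r * degD D := by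
  induction r with
  | zero => simp [degD]
  | succ r ih =>
    rw [succ_nsmul, QR2_deg_add, ih]
    push_cast
    ring

theorem QR2_deg_sub (D D' : Place k F →₀ ℤ) : degD (D - D') = degD D - degD D' := by
  have h := QR2_deg_add (D - D') D'
  rw [sub_add_cancel] at h
  linarith

/-- the positive part -/
def QR2_pos (D : Place k F →₀ ℤ) : Place k F →₀ ℤ := D.mapRange (fun n => max n 0) (by simp)

theorem QR2_pos_apply (D : Place k F →₀ ℤ) (P : Place k F) : QR2_pos D P = max (D P) 0 := by
  unfold QR2_pos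
  rw [Finsupp.mapRange_apply]

/-- the pole divisor -/
def QR2_pole (f : F) (h : (Function.support fun P : Place k F => P.ord f).Finite) : Place k F →₀ ℤ :=
  Finsupp.ofSupportFinite (fun P : Place k F => max (-P.ord f) 0)
    (h.subset fun P hP => by
      rw [Function.mem_support] at hP ⊢
      intro h0
      apply hP
      show max (-P.ord f) 0 = 0
      rw [h0]; rfl)

theorem QR2_pole_apply (f : F) (h : (Function.support fun P : Place k F => P.ord f).Finite)
    (P : Place k F) : QR2_pole f h P = max (-P.ord f) 0 := rfl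

theorem QR2_deg_pole (f : F) (h : (Function.support fun P : Place k F => P.ord f).Finite) :
    degD (QR2_pole f h) = ∑ᶠ P : Place k F, max (-P.ord f) 0 := by
  unfold degD
  rw [Finsupp.sum, finsum_eq_sum_of_support_subset]
  · rfl
  · intro P hP
    rw [Finset.mem_coe, Finsupp.mem_support_iff]
    exact hP

end

theorem QR2 (hL0 : QL0_stmt) (hL2 : QL2_stmt) (hV4 : QV4_stmt) (hV6 : QV6_stmt) (hZ3 : QZ3_stmt)
    (hR1 : QR1_stmt) : QR2_stmt := by
  intro k F _ _ _ _ hF
  obtain ⟨hfin, hell0, hmono⟩ := hR1 k F hF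
  obtain ⟨x, hx, -⟩ := id hF
  have hx0 : x ≠ 0 := by
    rintro rfl
    exact hx (isAlgebraic_zero)
  have hV := hV4 k F hF
  set n := degx k x with hn
  have hnpos : 0 < n := by
    have := hL0 k F hF x hx
    exact Module.finrank_pos
  obtain ⟨u, hu, -⟩ := hL2 k F hF x hx
  have hu0 : ∀ i, u i ≠ 0 := by
    intro i h0
    have h1 := hu (fun j => if j = i then 1 else 0) (by
      rw [Finset.sum_eq_single i]
      · simp [h0]
      · intro j _ hj; simp [hj]
      · intro h; exact absurd (Finset.mem_univ i) h) i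
    simp at h1
  -- divisors
  set A : Place k F →₀ ℤ := QR2_pole x (hV x hx0) with hA
  have hAdeg : degD A = n := by
    rw [hA, QR2_deg_pole, (hZ3 k F hF x hx).2]
  set C : Place k F →₀ ℤ := ∑ i, QR2_pole (u i) (hV (u i) (hu0 i)) with hC
  have hC0 : ∀ P, 0 ≤ C P := by
    intro P
    rw [hC, Finsupp.finsetSum_apply]
    exact Finset.sum_nonneg fun i _ => by rw [QR2_pole_apply]; exact le_max_right _ _
  have hCu : ∀ i P, -C P ≤ P.ord (u i) := by
    intro i P
    have h1 : QR2_pole (u i) (hV (u i) (hu0 i)) P ≤ C P := by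
      rw [hC, Finsupp.finsetSum_apply]
      exact Finset.single_le_sum (f := fun i => QR2_pole (u i) (hV (u i) (hu0 i)) P)
        (fun j _ => by rw [QR2_pole_apply]; exact le_max_right _ _) (Finset.mem_univ i)
    rw [QR2_pole_apply] at h1
    have h2 := le_max_left (-P.ord (u i)) 0
    omega
  have hA0 : ∀ P, 0 ≤ A P := fun P => by rw [hA, QR2_pole_apply]; exact le_max_right _ _
  have hAx : ∀ P, -A P ≤ P.ord x := fun P => by
    rw [hA, QR2_pole_apply]
    have := le_max_left (-P.ord x) 0
    omega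
  -- many independent elements
  have hlow : ∀ r : ℕ, (n * (r + 1) : ℤ) ≤ ell (r • A + C) := by
    intro r
    have hmem : ∀ p : Fin (r + 1) × Fin n, x ^ (p.1 : ℕ) * u p.2 ∈ RR (r • A + C) := by
      intro p
      right
      intro P
      rw [P.ord_mul _ _ (pow_ne_zero _ hx0) (hu0 _), P.ord_pow hx0, Finsupp.add_apply,
        Finsupp.smul_apply]
      have h1 := hCu p.2 P
      have h2 := hAx P
      have h3 := hA0 P
      have h4 : ((p.1 : ℕ) : ℤ) ≤ r := by
        have := p.1.2
        exact_mod_cast Nat.lt_succ_iff.1 this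
      have h5 : -((r : ℤ) * A P) ≤ ((p.1 : ℕ) : ℤ) * P.ord x := by
        calc -((r : ℤ) * A P) ≤ -(((p.1 : ℕ) : ℤ) * A P) := by nlinarith
          _ = ((p.1 : ℕ) : ℤ) * (-A P) := by ring
          _ ≤ ((p.1 : ℕ) : ℤ) * P.ord x := mul_le_mul_of_nonneg_left h2 (Int.natCast_nonneg _)
      rw [nsmul_eq_mul]
      linarith
    let v : Fin (r + 1) × Fin n → RR (r • A + C) := fun p => ⟨x ^ (p.1 : ℕ) * u p.2, hmem p⟩
    have hv : LinearIndependent k v := by
      rw [Fintype.linearIndependent_iff]
      intro g hg p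
      have h1 : ∑ p : Fin (r + 1) × Fin n, g p • (x ^ (p.1 : ℕ) * u p.2) = 0 := by
        have := congrArg (Submodule.subtype _) hg
        rw [map_sum, map_zero] at this
        exact this
      let φ : Fin n → Polynomial k := fun i =>
        ∑ j : Fin (r + 1), Polynomial.C (g (j, i)) * Polynomial.X ^ (j : ℕ)
      have h2 : ∑ i, aeval x (φ i) * u i = 0 := by
        rw [← h1, Fintype.sum_prod_type, Finset.sum_comm]
        refine Finset.sum_congr rfl fun i _ => ?_
        simp only [φ, map_sum, map_mul, Polynomial.aeval_C, map_pow, Polynomial.aeval_X,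
          Finset.sum_mul, Algebra.smul_def]
        refine Finset.sum_congr rfl fun j _ => by ring
      have h3 := hu φ h2 p.2
      have h4 := congrArg (fun q : Polynomial k => q.coeff (p.1 : ℕ)) h3
      simp only [φ, Polynomial.finsetSum_coeff, Polynomial.coeff_C_mul, Polynomial.coeff_X_pow,
        Polynomial.coeff_zero] at h4
      rw [Finset.sum_eq_single p.1] at h4
      · simpa using h4
      · intro j _ hj
        rw [if_neg, mul_zero]
        intro h; exact hj (Fin.ext h.symm)
      · intro h; exact absurd (Finset.mem_univ _) h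
    have h5 := hfin (r • A + C)
    have h6 := hv.fintype_card_le_finrank
    rw [Fintype.card_prod, Fintype.card_fin, Fintype.card_fin] at h6
    have h7 : (r + 1) * n ≤ ell (r • A + C) := h6
    have h8 : (((r + 1) * n : ℕ) : ℤ) ≤ (ell (r • A + C) : ℤ) := by exact_mod_cast h7
    push_cast at h8
    linarith
  have hlow2 : ∀ r : ℕ, (n * (r + 1) : ℤ) - degD C ≤ ell (r • A) := by
    intro r
    have h1 := (hmono (r • A) (r • A + C) (by
      intro P
      rw [Finsupp.add_apply]
      linarith [hC0 P])).2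
    rw [QR2_deg_add] at h1
    linarith [hlow r]
  have hub : ∀ r : ℕ, degD (r • A) - (ell (r • A) : ℤ) ≤ degD C - n := by
    intro r
    rw [QR2_deg_nsmul, hAdeg]
    linarith [hlow2 r]
  -- the upper bound
  have hbound : ∀ D : Place k F →₀ ℤ, degD D - (ell D : ℤ) ≤ degD C - n := by
    intro D
    set D₁ := QR2_pos D with hD₁
    have hD₁0 : ∀ P, 0 ≤ D₁ P := fun P => by rw [hD₁, QR2_pos_apply]; exact le_max_right _ _
    have h1 := (hmono D D₁ (by
      intro P
      rw [hD₁, QR2_pos_apply]
      exact le_max_left _ _)).2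
    -- a function
    set r : ℕ := (degD C + degD D₁).toNat with hr
    have hr' : degD C + degD D₁ ≤ r := Int.self_le_toNat _
    have h2 := (hmono (r • A - D₁) (r • A) (by
      intro P
      rw [Finsupp.sub_apply]
      linarith [hD₁0 P])).2
    rw [QR2_deg_sub] at h2
    have h3 := hlow2 r
    have hn1 : (1 : ℤ) ≤ n := by exact_mod_cast hnpos
    have h4 : (0 : ℤ) < ell (r • A - D₁) := by nlinarith
    have h5 : 0 < ell (r • A - D₁) := by exact_mod_cast h4
    have h6 : Nontrivial (RR (r • A - D₁)) := Module.nontrivial_of_finrank_pos h5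
    obtain ⟨z, hz⟩ := exists_ne (0 : RR (r • A - D₁))
    have hz0 : (z : F) ≠ 0 := fun h => hz (Subtype.ext h)
    have h7 : ∀ P : Place k F, -(r • A - D₁) P ≤ P.ord (z : F) := z.2.resolve_left hz0
    have hzi : (z : F)⁻¹ ≠ 0 := inv_ne_zero hz0
    obtain ⟨h8, h9, h10⟩ := hV6 k F hF _ hzi
    have h11 := (hmono (D₁ + prin ((z : F)⁻¹)) (r • A) (by
      intro P
      rw [Finsupp.add_apply, h8, P.ord_inv hz0]
      have := h7 P
      rw [Finsupp.sub_apply] at this
      linarith)).2
    rw [QR2_deg_add, h9, h10] at h11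
    linarith [hub r]
  -- conclusion
  have hgr : ∃ m : ℤ, IsGreatest
      (Set.range fun D : Place k F →₀ ℤ => degD D + 1 - (Module.finrank k (RR D) : ℤ)) m := by
    have hne : (Set.range fun D : Place k F →₀ ℤ => degD D + 1 - (Module.finrank k (RR D) : ℤ)).Nonempty :=
      ⟨_, ⟨0, rfl⟩⟩
    have hbdd : ∃ b : ℤ, ∀ z : ℤ,
        z ∈ (Set.range fun D : Place k F →₀ ℤ => degD D + 1 - (Module.finrank k (RR D) : ℤ)) → z ≤ b := by
      refine ⟨degD C - n + 1, ?_⟩
      rintro z ⟨D, rfl⟩
      have := hbound D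
      unfold ell at this
      show degD D + 1 - (Module.finrank k (RR D) : ℤ) ≤ _
      linarith
    obtain ⟨m, hm1, hm2⟩ := Int.exists_greatest_of_bdd hbdd hne
    exact ⟨m, hm1, hm2⟩
  obtain ⟨m, hm⟩ := hgr
  have hm0 : 0 ≤ m := by
    have h1 := hm.2 ⟨0, rfl⟩
    have h2 : degD (0 : Place k F →₀ ℤ) = 0 := rfl
    have h3 : (Module.finrank k (RR (0 : Place k F →₀ ℤ)) : ℤ) = 1 := by exact_mod_cast hell0
    simp only [h2, h3] at h1
    linarith
  refine ⟨m.toNat, ?_⟩
  unfold IsGenus
  rw [Int.toNat_of_nonneg hm0]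
  exact hm

end

end Pool.Agent.helper53.AU
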