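import Pool.Agent.helper53.AU.SpecG3

/-!
# Project au, module C6
-/

namespace Pool.Agent.helper53.AU

open scoped Classical

theorem C6 (hC2 : C2_stmt) (hC3 : C3_stmt) (hP1 : P1_stmt) (hP6 : P6_stmt) (hPLL : PLL_stmt)
    (hAB : AB_stmt) (hLO : LO_stmt) (hNH : NH_stmt) : C6_stmt := by
  intro L Ω _ _ A E t ρ h x hxρ hxE
  have hLL := h.LL
  have hfL : Finite L := hLL.finL
  have hfΩ : Finite Ω := hLL.finΩ
  have hff : FaithfulSMul L Ω := hLL.faithful
  have hPL : PL L Ω A := hPLL L Ω A hLL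
  obtain ⟨ω₀⟩ := hPL.nonempty
  obtain ⟨τ, hτA, hτ⟩ := (hP1 L Ω A hPL).1
  obtain ⟨-, -, hD, hreg, -⟩ := hP6 L Ω A hPL τ t hτA hτ h.dih
  obtain ⟨-, htE, hinvE⟩ := hC2 L Ω A E t ρ h
  obtain ⟨-, hAcE, hcop, hcardm⟩ := hC3 L Ω A E t ρ h
  have hodd := (hAB L A hLL.cyc).1
  have htt : t * t = 1 := h.dih.1
  have hcommA : ∀ a ∈ A, ∀ b ∈ A, a * b = b * a := by
    intro a ha b hb
    have hc : IsCyclic A := hLL.cyc
    have := (IsCyclic.commGroup (α := A)).mul_comm ⟨a, ha⟩ ⟨b, hb⟩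
    exact congrArg Subtype.val this
  -- the subgroup `Ac`
  let Ac : Subgroup L := oddPart A ⊓ Subgroup.centralizer {t}
  have hAc : ∀ a : L, a ∈ Ac ↔ a ∈ oddPart A ∧ t * a = a * t := by
    intro a
    rw [Subgroup.mem_inf, Subgroup.mem_centralizer_singleton_iff]
    exact and_congr_right fun _ => eq_comm
  have hcAc : Nat.card {a : L // a ∈ oddPart A ∧ t * a = a * t} = Nat.card Ac :=
    Nat.card_congr (Equiv.subtypeEquivRight fun a => (hAc a).symm)
  rw [hcAc] at hcop hcardm ⊢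
  have hAcA : Ac ≤ A := fun a ha => ((hodd a).1 ((hAc a).1 ha).1).1
  have hcyc : IsCyclic Ac := by
    have hc : IsCyclic A := hLL.cyc
    exact isCyclic_of_injective (Subgroup.inclusion hAcA) (Subgroup.inclusion_injective hAcA)
  -- the subgroup `X`
  let X : Subgroup L := Subgroup.centralizer {ρ} ⊓ Subgroup.centralizer (E : Set L)
  have hX : ∀ y : L, y ∈ X ↔ y * ρ = ρ * y ∧ ∀ e ∈ E, y * e = e * y := by
    intro y
    rw [Subgroup.mem_inf, Subgroup.mem_centralizer_singleton_iff, Subgroup.mem_centralizer_iff]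
    refine and_congr ?_ ⟨fun hh e he => (hh e he).symm, fun hh e he => (hh e he).symm⟩
    exact Iff.rfl
  have hρA : ρ ∈ A := ((hodd ρ).1 h.mem).1
  have hAcX : Ac ≤ X := by
    intro a ha
    rw [hX]
    refine ⟨hcommA a (hAcA ha) ρ hρA, fun e he => ?_⟩
    exact hAcE a ((hAc a).1 ha).1 ((hAc a).1 ha).2 e he
  have hXE : ∀ y ∈ X, y ∈ E → y = 1 := by
    intro y hy hyE
    have hs : IsSimpleGroup E := h.simple.1
    have hce : (⟨y, hyE⟩ : E) ∈ Subgroup.center E := by
      rw [Subgroup.mem_center_iff]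
      intro g
      exact Subtype.ext (((hX y).1 hy).2 g.1 g.2).symm
    rcases (inferInstance : (Subgroup.center E).Normal).eq_bot_or_eq_top with hh | hh
    · rw [hh, Subgroup.mem_bot] at hce
      exact congrArg Subtype.val hce
    · exfalso
      obtain ⟨a, b, hab⟩ := h.simple.2
      apply hab
      have : b ∈ Subgroup.center E := by rw [hh]; trivial
      exact Subgroup.mem_center_iff.1 this a
  have hXodd : Odd (Nat.card X) := by
    rw [← Nat.not_even_iff_odd]
    intro hev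
    have : Fact (Nat.Prime 2) := ⟨Nat.prime_two⟩
    obtain ⟨s, hs⟩ := exists_prime_orderOf_dvd_card' 2 (even_iff_two_dvd.1 hev)
    have hs1 : (s : L) * s = 1 := by
      have := pow_orderOf_eq_one s
      rw [hs, pow_two] at this
      exact congrArg Subtype.val this
    have hs2 : (s : L) ≠ 1 := by
      intro hh
      have : s = 1 := Subtype.ext hh
      rw [this, orderOf_one] at hs
      omega
    exact hs2 (hXE s.1 s.2 (hinvE s.1 ⟨hs1, hs2⟩ ((hX s.1).1 s.2).1))
  -- complement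
  have hsplit : ∀ a ∈ A, ∃ c ∈ Ac, ∃ e ∈ E, a = c * e := by
    intro a ha
    have h1 : Nat.card (Ac.subgroupOf A) = Nat.card Ac :=
      Nat.card_congr (Subgroup.subgroupOfEquivOfLe hAcA).toEquiv
    have h2 : Nat.card ((A ⊓ E).subgroupOf A) = Nat.card (A ⊓ E : Subgroup L) :=
      Nat.card_congr (Subgroup.subgroupOfEquivOfLe inf_le_left).toEquiv
    have h3 : Subgroup.IsComplement' (Ac.subgroupOf A) ((A ⊓ E).subgroupOf A) := by
      apply Subgroup.isComplement'_of_coprime
      · rw [h1, h2]; exact hcardm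
      · rw [h1, h2]; exact hcop
    obtain ⟨⟨c, e⟩, hce⟩ := h3.2 ⟨a, ha⟩
    refine ⟨c.1.1, ?_, e.1.1, ?_, ?_⟩
    · exact Subgroup.mem_subgroupOf.1 c.2
    · exact (Subgroup.mem_subgroupOf.1 e.2).2
    · exact (congrArg Subtype.val hce).symm
  have hpts : ∀ ω z : Ω, ∃ c ∈ Ac, ∃ e ∈ E, z = c • (e • ω) := by
    intro ω z
    obtain ⟨d, hd, -⟩ := hreg ω z
    rcases (hD d.1).1 d.2 with h1 | h1
    · obtain ⟨c, hc, e, he, hce⟩ := hsplit d.1 h1
      refine ⟨c, hc, e, he, ?_⟩
      rw [← hd, ← mul_smul, hce]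
    · obtain ⟨c, hc, e, he, hce⟩ := hsplit _ h1
      refine ⟨c, hc, e * t, E.mul_mem he htE, ?_⟩
      rw [← hd, ← mul_smul]
      congr 1
      calc d.1 = d.1 * t * t := by rw [mul_assoc, htt, mul_one]
        _ = c * (e * t) := by rw [hce, mul_assoc]
  -- orbits
  have horb : ∀ ω : Ω, ∀ y ∈ X, ∃ a ∈ Ac, y • ω = a • ω := by
    intro ω y hy
    obtain ⟨c, hc, e, he, hce⟩ := hpts ω (y • ω)
    have hG := h.EG ω
    obtain ⟨k, -, hk3, hk, -⟩ := hG.card
    have hz : e • ω = ω := by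
      by_contra hne
      have hfix : ∀ g ∈ E, g • ω = ω → g • (e • ω) = e • ω := by
        intro g hg hgω
        have h1 : e • ω = (c⁻¹ * y) • ω := by
          rw [mul_smul, hce, inv_smul_smul]
        have h2 : g * (c⁻¹ * y) = (c⁻¹ * y) * g := by
          have hcy : c⁻¹ * y ∈ X := X.mul_mem (X.inv_mem (hAcX hc)) hy
          exact (((hX _).1 hcy).2 g hg).symm
        rw [h1, ← mul_smul, h2, mul_smul, hgω]
      let O := MulAction.orbit E ω
      let p0 : O := ⟨ω, MulAction.mem_orbit_self ω⟩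
      let p1 : O := ⟨e • ω, ⟨⟨e, he⟩, rfl⟩⟩
      have hcard3 : 2 < Nat.card O := by
        have h3 : (3 : ℕ) ^ 3 ≤ 3 ^ k := Nat.pow_le_pow_right (by norm_num) hk3
        have h4 : Nat.card O = 3 ^ k + 1 := hk
        omega
      obtain ⟨u, hu0, hu1⟩ : ∃ u : O, u ≠ p0 ∧ u ≠ p1 := by
        by_contra hcon
        push Not at hcon
        have hsub : (Set.univ : Set O) ⊆ {p0, p1} := by
          intro u _
          by_cases h0 : u = p0
          · exact Or.inl h0
          · exact Or.inr (hcon u h0)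
        have h5 : Nat.card O ≤ 2 := by
          rw [← Set.ncard_univ]
          refine (Set.ncard_le_ncard hsub).trans ?_
          exact (Set.ncard_insert_le _ _).trans (by rw [Set.ncard_singleton])
        omega
      have hp01 : p0 ≠ p1 := fun hh => hne (congrArg Subtype.val hh).symm
      obtain ⟨g, hg0, hg1⟩ := hG.two p0 p1 p0 u hp01 (Ne.symm hu0)
      have hg0' : (g : L) • ω = ω := congrArg Subtype.val hg0
      have hg1' : (g : L) • (e • ω) = (u : Ω) := congrArg Subtype.val hg1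
      apply hu1
      apply Subtype.ext
      rw [← hg1', hfix g.1 g.2 hg0']
    exact ⟨c, hc, by rw [hce, hz]⟩
  -- coprimality
  have hAcΩ : Nat.card Ac ∣ Nat.card Ω := by
    refine (Subgroup.card_dvd_of_le hAcA).trans ?_
    rw [← hLL.cardA]
    exact Dvd.intro_left _ rfl
  have hcopr : ∀ ω : Ω, Nat.Coprime (Nat.card {y : L // y ∈ X ∧ y • ω = ω}) (Nat.card Ac) := by
    intro ω
    have h1 : Nat.card {y : L // y ∈ X ∧ y • ω = ω} = Nat.card (X ⊓ MulAction.stabilizer L ω : Subgroup L) :=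
      Nat.card_congr (Equiv.subtypeEquivRight fun y => Iff.rfl)
    rw [h1]
    exact Nat.Coprime.coprime_dvd_left (Subgroup.card_dvd_of_le inf_le_right)
      (Nat.Coprime.coprime_dvd_right hAcΩ (hLL.copr ω))
  obtain ⟨hnorm, -⟩ := hLO L Ω X Ac hAcX hcyc hXodd horb
    (fun a ha ω hω => hLL.semireg a (hAcA ha) ω hω) hcopr
  -- the order of `X`
  have hcardX : Nat.card X = Nat.card {y : L // y ∈ X ∧ y • ω₀ = ω₀} * Nat.card Ac := by
    have h1 : (MulAction.stabilizer X ω₀).index = (MulAction.orbit X ω₀).ncard :=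
      MulAction.index_stabilizer X ω₀
    have h2 : (MulAction.stabilizer Ac ω₀).index = (MulAction.orbit Ac ω₀).ncard :=
      MulAction.index_stabilizer Ac ω₀
    have h3 : MulAction.orbit X ω₀ = MulAction.orbit Ac ω₀ := by
      ext z
      constructor
      · rintro ⟨y, rfl⟩
        obtain ⟨a, ha, hya⟩ := horb ω₀ y.1 y.2
        exact ⟨⟨a, ha⟩, hya.symm⟩
      · rintro ⟨a, rfl⟩
        exact ⟨⟨a.1, hAcX a.2⟩, rfl⟩
    have h4 : MulAction.stabilizer Ac ω₀ = ⊥ := by
      rw [Subgroup.eq_bot_iff_forall]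
      intro a ha
      exact Subtype.ext (hLL.semireg a.1 (hAcA a.2) ω₀ ha)
    rw [h4, Subgroup.index_bot] at h2
    have h5 := Subgroup.card_mul_index (MulAction.stabilizer X ω₀)
    rw [h1, h3, ← h2] at h5
    rw [← h5]
    congr 1
    refine Nat.card_congr
      { toFun := fun s => ⟨s.1.1, s.1.2, s.2⟩
        invFun := fun y => ⟨⟨y.1, y.2.1⟩, y.2.2⟩
        left_inv := fun s => rfl
        right_inv := fun y => rfl }
  have hposAc : 0 < Nat.card Ac := Nat.card_pos
  constructor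
  · intro hx
    rw [← hAc]
    refine hNH L Ac X hAcX hnorm ?_ x ((hX x).2 ⟨hxρ, hxE⟩) hx
    rw [hcardX, Nat.mul_div_cancel _ hposAc]
    exact (hcopr ω₀).symm
  · intro hx
    have hxA : x ∈ Ac := (hAc x).2 hx
    have := pow_card_eq_one' (x := (⟨x, hxA⟩ : Ac))
    exact congrArg Subtype.val this

end Pool.Agent.helper53.AU
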