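import Pool.Agent.helper53.AU.SpecG3

/-!
# Project au, module G1
-/

namespace Pool.Agent.helper53.AU

open scoped Classical

theorem G1_comm {L : Type} [Group L] (A : Subgroup L) (h : IsCyclic A) :
    ∀ a ∈ A, ∀ b ∈ A, a * b = b * a := by
  intro a ha b hb
  have := (IsCyclic.commGroup (α := A)).mul_comm ⟨a, ha⟩ ⟨b, hb⟩
  exact congrArg Subtype.val this

theorem G1 (hP1 : P1_stmt) (hP4 : P4_stmt) (hP6 : P6_stmt) (hPLL : PLL_stmt) : G1_stmt := by
  intro L Ω _ _ A t hLL hdih hinv
  have hPL : PL L Ω A := hPLL L Ω A hLL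
  obtain ⟨τ, hτA, hτ⟩ := (hP1 L Ω A hPL).1
  obtain ⟨-, -, hD, hreg, -⟩ := hP6 L Ω A hPL τ t hτA hτ hdih
  obtain ⟨ν, -, -, -, -, hconj⟩ := hP4 L Ω A hPL
  obtain ⟨α⟩ := hPL.nonempty
  have htrans := hLL.trans
  have hcomm := G1_comm A hLL.cyc
  have htt : t * t = 1 := hdih.1
  have htA : t ∉ A := hdih.2.1
  have htinv : t⁻¹ = t := inv_eq_of_mul_eq_one_left htt
  have ht1 : t ≠ 1 := fun h => htA (h ▸ A.one_mem)
  have hat : ∀ a ∈ A, t * a = a⁻¹ * t := by
    intro a ha
    have := hinv a ha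
    calc t * a = (t * a * t⁻¹) * t := by group
      _ = a⁻¹ * t := by rw [this]
  -- every point
  have hpts : ∀ ω : Ω, ∃ a ∈ A, ω = a • α ∨ ω = (a * t) • α := by
    intro ω
    obtain ⟨d, hd, -⟩ := hreg α ω
    rcases (hD d.1).1 d.2 with h | h
    · exact ⟨d.1, h, Or.inl hd.symm⟩
    · refine ⟨d.1 * t, h, Or.inr ?_⟩
      rw [mul_assoc, htt, mul_one]
      exact hd.symm
  have hdis : ∀ a ∈ A, ∀ b ∈ A, a • α = (b * t) • α → False := by
    intro a ha b hb h
    have h1 : a ∈ A ⊔ Subgroup.zpowers t := (hD a).2 (Or.inl ha)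
    have h2 : b * t ∈ A ⊔ Subgroup.zpowers t := (hD _).2 (Or.inr (by rw [mul_assoc, htt, mul_one]; exact hb))
    have h3 := (hreg α (a • α)).unique (y₁ := ⟨a, h1⟩) (y₂ := ⟨b * t, h2⟩) rfl h.symm
    have h4 : a = b * t := congrArg Subtype.val h3
    apply htA
    have : t = b⁻¹ * a := by rw [h4]; group
    rw [this]
    exact A.mul_mem (A.inv_mem hb) ha
  -- the orbit of `t α`
  have hsecond : ∀ a ∈ A, ∃ g : L, g • α = α ∧ g • (t • α) = (a * t) • α := by
    intro a ha
    have hs : IsInv (a * t) := by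
      refine ⟨?_, fun h => ?_⟩
      · calc a * t * (a * t) = a * (t * a) * t := by group
          _ = 1 := by rw [hat a ha]; rw [← mul_assoc, mul_inv_cancel, one_mul, htt]
      · apply htA
        have : t = a⁻¹ := eq_inv_of_mul_eq_one_right h
        rw [this]; exact A.inv_mem ha
    obtain ⟨g, hg, hgt⟩ := hconj α t (a * t) ⟨htt, ht1⟩ hs
    refine ⟨g, hg, ?_⟩
    have hg' : g⁻¹ • α = α := by rw [inv_smul_eq_iff, hg]
    calc g • (t • α) = g • (t • (g⁻¹ • α)) := by rw [hg']
      _ = (g * t * g⁻¹) • α := by simp [mul_smul]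
      _ = (a * t) • α := by rw [hgt]
  -- main claim
  have key : ∀ z : Ω, z ≠ α → ∃ g : L, g • α = α ∧ g • (t • α) = z := by
    by_contra hcon
    push Not at hcon
    obtain ⟨β, hβα, hβ⟩ := hcon
    set C : Set Ω := {z | ∀ g : L, g • α = α → g • (t • α) ≠ z} with hC
    have hCinv : ∀ g : L, g • α = α → ∀ z ∈ C, g • z ∈ C := by
      intro g hg z hz h hh heq
      refine hz (g⁻¹ * h) ?_ ?_
      · rw [mul_smul, hh, inv_smul_eq_iff, hg]
      · rw [mul_smul, heq, inv_smul_smul]
    have hCA : ∀ z ∈ C, ∃ a ∈ A, z = a • α := by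
      intro z hz
      obtain ⟨a, ha, h | h⟩ := hpts z
      · exact ⟨a, ha, h⟩
      · exfalso
        obtain ⟨g, hg, hgt⟩ := hsecond a ha
        exact hz g hg (hgt.trans h.symm)
    let R : Ω → Ω → Prop := fun x y => ∃ g : L, g • α = x ∧ g⁻¹ • y ∈ C
    have hRg : ∀ (g : L) (x y : Ω), g • α = x → R x y → g⁻¹ • y ∈ C := by
      rintro g x y hg ⟨h, hh, hy⟩
      have h1 : (g⁻¹ * h) • α = α := by rw [mul_smul, hh, ← hg, inv_smul_smul]
      have h2 := hCinv _ h1 _ hy
      rwa [← mul_smul, mul_assoc, mul_inv_cancel, mul_one] at h2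
    have hRinv : ∀ (g : L) (x y : Ω), R x y → R (g • x) (g • y) := by
      rintro g x y ⟨h, hh, hy⟩
      refine ⟨g * h, by rw [mul_smul, hh], ?_⟩
      rw [mul_inv_rev, mul_smul, inv_smul_smul]
      exact hy
    have hRP : ∀ x y : Ω, R x y → ((∃ a ∈ A, x = a • α) ↔ (∃ a ∈ A, y = a • α)) := by
      intro x y hxy
      obtain ⟨a, ha, h | h⟩ := hpts x
      · have h1 := hRg a x y h.symm hxy
        obtain ⟨b, hb, hb'⟩ := hCA _ h1
        refine ⟨fun _ => ⟨a * b, A.mul_mem ha hb, ?_⟩, fun _ => ⟨a, ha, h⟩⟩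
        rw [mul_smul, ← hb', smul_inv_smul]
      · have h1 := hRg (a * t) x y h.symm hxy
        obtain ⟨b, hb, hb'⟩ := hCA _ h1
        have h2 : y = (a * b⁻¹ * t) • α := by
          have : y = (a * t) • (b • α) := by rw [← hb', smul_inv_smul]
          rw [this, ← mul_smul]
          congr 1
          rw [mul_assoc, hat b hb]; group
        constructor
        · rintro ⟨c, hc, hc'⟩
          exact (hdis c hc a ha (by rw [← hc', h])).elim
        · rintro ⟨c, hc, hc'⟩
          exact (hdis c hc (a * b⁻¹) (A.mul_mem ha (A.inv_mem hb)) (by rw [← hc', h2])).elim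
    let r : Setoid Ω := Relation.EqvGen.setoid R
    have hrR : ∀ x y, R x y → r x y := fun x y h => Relation.EqvGen.rel x y h
    have hrinv : ∀ (g : L) (x y : Ω), r x y → r (g • x) (g • y) := by
      intro g x y h
      induction h with
      | rel x y h => exact Relation.EqvGen.rel _ _ (hRinv g x y h)
      | refl x => exact Relation.EqvGen.refl _
      | symm x y _ ih => exact Relation.EqvGen.symm _ _ ih
      | trans x y z _ _ ih1 ih2 => exact Relation.EqvGen.trans _ _ _ ih1 ih2
    have hrP : ∀ x y : Ω, r x y → ((∃ a ∈ A, x = a • α) ↔ (∃ a ∈ A, y = a • α)) := by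
      intro x y h
      induction h with
      | rel x y h => exact hRP x y h
      | refl x => exact Iff.rfl
      | symm x y _ ih => exact ih.symm
      | trans x y z _ _ ih1 ih2 => exact ih1.trans ih2
    -- the kernel
    let K : Subgroup L :=
      { carrier := {g | ∀ ω : Ω, r (g • ω) ω}
        one_mem' := fun ω => by rw [one_smul]
        mul_mem' := fun {a b} ha hb ω => by
          rw [mul_smul]
          exact r.trans (ha (b • ω)) (hb ω)
        inv_mem' := fun {a} ha ω => by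
          have := ha (a⁻¹ • ω)
          rw [smul_inv_smul] at this
          exact r.symm this }
    have hKn : K.Normal := by
      refine ⟨fun k hk g ω => ?_⟩
      have h1 : r (g • (k • (g⁻¹ • ω))) (g • (g⁻¹ • ω)) := hrinv g _ _ (hk (g⁻¹ • ω))
      rw [smul_inv_smul] at h1
      rw [mul_smul, mul_smul]
      exact h1
    have hβC : β ∈ C := fun g hg => hβ g hg
    obtain ⟨b, hb, hbβ⟩ := hCA β hβC
    have hb1 : b ≠ 1 := by
      rintro rfl
      rw [one_smul] at hbβ
      exact hβα hbβ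
    have hr1 : r α (b • α) := by
      rw [← hbβ]
      refine hrR _ _ ⟨1, one_smul _ _, ?_⟩
      rw [inv_one, one_smul]; exact hβC
    have hr2 : r α (b⁻¹ • α) := by
      have := hrinv b⁻¹ _ _ (r.symm hr1)
      rwa [inv_smul_smul] at this
    have hbK : b ∈ K := by
      intro ω
      obtain ⟨a, ha, h | h⟩ := hpts ω
      · rw [h, ← mul_smul, hcomm b hb a ha, mul_smul]
        exact hrinv a _ _ (r.symm hr1)
      · have h1 : b * (a * t) = (a * t) * b⁻¹ := by
          have h2 := hat b⁻¹ (A.inv_mem hb)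
          rw [inv_inv] at h2
          calc b * (a * t) = (b * a) * t := by group
            _ = a * (b * t) := by rw [hcomm b hb a ha]; group
            _ = a * (t * b⁻¹) := by rw [h2]
            _ = (a * t) * b⁻¹ := by group
        rw [h, ← mul_smul, h1, mul_smul]
        exact hrinv (a * t) _ _ (r.symm hr2)
    have hsimple := hLL.simple
    have hKtop : K = ⊤ := by
      rcases hKn.eq_bot_or_eq_top with h | h
      · exfalso
        rw [h, Subgroup.mem_bot] at hbK
        exact hb1 hbK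
      · exact h
    have htK : t ∈ K := by rw [hKtop]; trivial
    have h5 := (hrP _ _ (htK α)).2 ⟨1, A.one_mem, (one_smul _ _).symm⟩
    obtain ⟨a, ha, ha'⟩ := h5
    exact hdis a ha 1 A.one_mem (by rw [one_mul]; exact ha'.symm)
  -- conclusion
  intro a b c d hab hcd
  have hpair : ∀ a b : Ω, a ≠ b → ∃ g : L, g • α = a ∧ g • (t • α) = b := by
    intro a b hab
    obtain ⟨g, hg⟩ := MulAction.exists_smul_eq L α a
    have h1 : g⁻¹ • b ≠ α := by
      intro h
      apply hab
      rw [← hg, ← h, smul_inv_smul]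
    obtain ⟨h, hh, hh'⟩ := key _ h1
    exact ⟨g * h, by rw [mul_smul, hh, hg], by rw [mul_smul, hh', smul_inv_smul]⟩
  obtain ⟨g, hg1, hg2⟩ := hpair a b hab
  obtain ⟨h, hh1, hh2⟩ := hpair c d hcd
  refine ⟨h * g⁻¹, ?_, ?_⟩
  · rw [mul_smul, ← hg1, inv_smul_smul, hh1]
  · rw [mul_smul, ← hg2, inv_smul_smul, hh2]

end Pool.Agent.helper53.AU
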