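import Pool.Agent.helper87.AU.SpecQ1

/-!
# Project au, module QR5: all large integers are pole numbers
-/

namespace Pool.Agent.helper53.AU

open scoped Classical IntermediateField
open Polynomial (aeval)

noncomputable section

theorem QR5_deg {k F : Type} [Field k] [Field F] [Algebra k F] (P : Place k F) (n : ℤ) :
    degD (Finsupp.single P n) = n := by
  unfold degD
  rw [Finsupp.sum_single_index rfl]

theorem QR5 (hR2 : QR2_stmt) (hR3 : QR3_stmt) : QR5_stmt := by
  intro k F _ _ _ _ hF P₀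
  obtain ⟨g, hg⟩ := hR2 k F hF
  obtain ⟨-, c, hc⟩ := hR3 k F hF g hg
  refine ⟨(c + 1).toNat, fun n hn => ?_⟩
  have hn' : c + 1 ≤ (n : ℤ) := by
    have h1 := Int.self_le_toNat (c + 1)
    have h2 : ((c + 1).toNat : ℤ) ≤ (n : ℤ) := by exact_mod_cast hn
    linarith
  have h1 := hc (Finsupp.single P₀ (n : ℤ)) (by rw [QR5_deg]; linarith)
  have h2 := hc (Finsupp.single P₀ ((n : ℤ) - 1)) (by rw [QR5_deg]; linarith)
  rw [QR5_deg] at h1 h2
  have hne : ¬ RR (k := k) (Finsupp.single P₀ (n : ℤ)) ≤ RR (Finsupp.single P₀ ((n : ℤ) - 1)) := by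
    intro hle
    have hge : RR (k := k) (Finsupp.single P₀ ((n : ℤ) - 1)) ≤ RR (Finsupp.single P₀ (n : ℤ)) := by
      intro f hf
      rcases hf with hf | hf
      · exact Or.inl hf
      · right
        intro P
        refine le_trans ?_ (hf P)
        by_cases hP : P = P₀
        · subst hP; simp
        · rw [Finsupp.single_apply, Finsupp.single_apply, if_neg (Ne.symm hP), if_neg (Ne.symm hP)]
    have heq := le_antisymm hle hge
    unfold ell at h1 h2
    rw [heq, h2] at h1
    linarith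
  rw [SetLike.not_le_iff_exists] at hne
  obtain ⟨f, hf, hf'⟩ := hne
  have hf0 : f ≠ 0 := by
    rintro rfl
    exact hf' (Submodule.zero_mem _)
  have h3 : ∀ P : Place k F, -(Finsupp.single P₀ (n : ℤ)) P ≤ P.ord f := hf.resolve_left hf0
  have h4 : ¬ ∀ P : Place k F, -(Finsupp.single P₀ ((n : ℤ) - 1)) P ≤ P.ord f := fun h => hf' (Or.inr h)
  push Not at h4
  obtain ⟨P, hP⟩ := h4
  have hPP : P = P₀ := by
    by_contra hne
    have h5 := h3 P
    rw [Finsupp.single_apply, if_neg (Ne.symm hne)] at h5 hP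
    omega
  subst hPP
  have h5 := h3 P
  rw [Finsupp.single_eq_same] at h5 hP
  refine ⟨f, ?_, hf0, by omega⟩
  intro Q hQ
  right
  have h6 := h3 Q
  rw [Finsupp.single_apply, if_neg (Ne.symm hQ)] at h6
  simpa using h6

end

end Pool.Agent.helper53.AU
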